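import Mathlib
import Pool.Agent.TH339.HR6

/-!
For every `1 < p < ∞` and for real as well as complex scalars there is a `1/3`-norm on `L_p[0,1]`,
equivalent to the usual norm, with respect to which the Haar system is `1`-greedy.

Construction. For `f ∈ L_p` with Haar coefficients `a_j` let `N(f)` be the supremum of the numbers
`‖∑_j c_j h_j‖_p` over all finitely supported `(c_j)` for which there are a level `t > 0` and a finite
set `B` with at most as many elements as `{j : |a_j| ≥ t}` such that `|c_j| ≤ t` on `B`, and off `B`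
`|c_j| ≤ |a_j|` with `c_j = 0` if `|a_j| ≥ t`.

`N` is equivalent to the norm because the Haar system is unconditional and democratic. If `A` is a
greedy set of `f` with `m` elements and `g` is an `m`-term combination, every `c` which is admissible
for `f - G_A f` is admissible for `f - g`; this is `1`-greediness. Finally
`N(f + g) ≤ N(f) / (1 - θ) + N(g) + N(g) / θ` for all `0 < θ < 1`, which gives
`N(f + g)^{1/3} ≤ N(f)^{1/3} + N(g)^{1/3}` (take `θ = (N(g) / N(f))^{1/3} / 2` if `N(g) ≤ N(f)`).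
-/

set_option autoImplicit false

open MeasureTheory
open scoped ENNReal

namespace Pool.Agent.Results.MP_877d49_an.OneGreedySNorm

/-- Lebesgue measure on `[0,1]`. -/
noncomputable def leb : Measure ℝ := volume.restrict (Set.Icc 0 1)

/-- Indices of the Haar system: `none` is the index of `h_0`, and `some ⟨n, k⟩` with `0 ≤ k < 2 ^ n`
is the index of the Haar function of the dyadic interval `[k 2^{-n}, (k + 1) 2^{-n})`. -/
abbrev HaarIdx : Type := Option (Σ n : ℕ, Fin (2 ^ n))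

/-- The Haar functions normalized in `L_q`: `1_{[0,1)}` and
`2^{n/q} (1_{[k 2^{-n}, (k + 1/2) 2^{-n})} - 1_{[(k + 1/2) 2^{-n}, (k + 1) 2^{-n})})`. -/
noncomputable def haarFn (q : ℝ) : HaarIdx → ℝ → ℝ
  | none => (Set.Ico (0 : ℝ) 1).indicator (fun _ => 1)
  | some ⟨n, k⟩ => fun x => (2 : ℝ) ^ ((n : ℝ) / q) *
      ((Set.Ico ((k : ℝ) / 2 ^ n) (((k : ℝ) + 1 / 2) / 2 ^ n)).indicator (fun _ => 1) x -
        (Set.Ico (((k : ℝ) + 1 / 2) / 2 ^ n) (((k : ℝ) + 1) / 2 ^ n)).indicator (fun _ => 1) x)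

lemma haarFn_eq (q : ℝ) (j : HaarIdx) : haarFn q j = Pool.Agent.TH339.HR.haarFn q j := by
  rcases j with _ | ⟨n, k⟩ <;> rfl

lemma memLp_haarFn (𝕜 : Type) [RCLike 𝕜] (p : ℝ≥0∞) (q : ℝ) (j : HaarIdx) :
    MemLp (fun x => ((haarFn q j x : ℝ) : 𝕜)) p leb := by
  rw [haarFn_eq]
  exact Pool.Agent.TH339.HR.memLp_haarFn 𝕜 p q j

/-- The space `L_p[0,1]` over the field `𝕜`. -/
def LpSpace (𝕜 : Type) [RCLike 𝕜] (p : ℝ≥0∞) : Type := Lp 𝕜 p leb

/-- `L_p[0,1]` carries its usual norm. -/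
noncomputable instance instNorm (𝕜 : Type) [RCLike 𝕜] (p : ℝ≥0∞) [Fact (1 ≤ p)] :
    NormedAddCommGroup (LpSpace 𝕜 p) := Lp.instNormedAddCommGroup (α := ℝ) (E := 𝕜) (μ := leb)

/-- `L_p[0,1]` is a normed space over `𝕜`. -/
noncomputable instance instSpace (𝕜 : Type) [RCLike 𝕜] (p : ℝ≥0∞) [Fact (1 ≤ p)] :
    NormedSpace 𝕜 (LpSpace 𝕜 p) := Lp.instNormedSpace (α := ℝ) (E := 𝕜) (μ := leb)

/-- The `L_p`-normalized Haar function `h_j` as an element of `L_p[0,1]`, over the field `𝕜`. -/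
noncomputable def haar (𝕜 : Type) [RCLike 𝕜] (p : ℝ≥0∞) (j : HaarIdx) : LpSpace 𝕜 p :=
  (memLp_haarFn 𝕜 p p.toReal j).toLp _

/-- The coefficient `a_j(f)` of `f` in its expansion `f = ∑_j a_j(f) h_j` (see `expansion` below):
the integral of `f` against the Haar function normalized in `L_{p'}`, `p' = p / (p - 1)`. -/
noncomputable def coef (𝕜 : Type) [RCLike 𝕜] (p : ℝ≥0∞) : LpSpace 𝕜 p → HaarIdx → 𝕜 :=
  fun (f : Lp 𝕜 p leb) j => ∫ x, f x * ((haarFn (p.toReal / (p.toReal - 1)) j x : ℝ) : 𝕜) ∂leb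

section General

variable {𝕜 : Type} [RCLike 𝕜] {V : Type} [NormedAddCommGroup V] [NormedSpace 𝕜 V]

/-- `N` is an `s`-norm on the vector space `V` over `𝕜`. -/
structure IsSNorm (𝕜 : Type) [RCLike 𝕜] {V : Type} [NormedAddCommGroup V] [NormedSpace 𝕜 V]
    (s : ℝ) (N : V → ℝ) : Prop where
  nonneg : ∀ f, 0 ≤ N f
  eq_zero_iff : ∀ f, N f = 0 ↔ f = 0
  smul : ∀ (z : 𝕜) (f : V), N (z • f) = ‖z‖ * N f
  add : ∀ f g : V, N (f + g) ^ s ≤ N f ^ s + N g ^ s

/-- `N` is equivalent to the norm of `V`. -/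
def IsEquivalent {V : Type} [NormedAddCommGroup V] (N : V → ℝ) : Prop :=
  ∃ c C : ℝ, 0 < c ∧ c ≤ C ∧ ∀ f : V, c * ‖f‖ ≤ N f ∧ N f ≤ C * ‖f‖

/-- The finite set `A` is a greedy set for the family `a`. -/
def IsGreedySet (a : HaarIdx → 𝕜) (A : Finset HaarIdx) : Prop :=
  ∀ i ∈ A, ∀ j, j ∉ A → ‖a j‖ ≤ ‖a i‖

/-- The system `h`, with coefficients `a`, is `1`-greedy with respect to `N`: for every `f`, every
`m ≥ 1`, every greedy set `A` of order `m` for `f` and every combination `g = ∑_{j ∈ B} b_j h_j` with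
`|B| ≤ m`, `N (f - G_A f) ≤ N (f - g)`, where `G_A f = ∑_{j ∈ A} a_j(f) h_j`. -/
def IsOneGreedy (h : HaarIdx → V) (a : V → HaarIdx → 𝕜) (N : V → ℝ) : Prop :=
  ∀ (f : V) (m : ℕ), 1 ≤ m → ∀ A : Finset HaarIdx, A.card = m → IsGreedySet (a f) A →
    ∀ (B : Finset HaarIdx) (b : HaarIdx → 𝕜), B.card ≤ m →
      N (f - ∑ j ∈ A, a f j • h j) ≤ N (f - ∑ j ∈ B, b j • h j)

end General

/-! ### Proof -/

/-- The numbers `coef f j` are the coefficients of the expansion of `f` in the Haar system, and the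
expansion converges unconditionally. -/
theorem expansion {𝕜 : Type} [RCLike 𝕜] {p : ℝ≥0∞} [Fact (1 ≤ p)] (hp1 : 1 < p) (hp2 : p ≠ ∞)
    (f : LpSpace 𝕜 p) : HasSum (fun j => coef 𝕜 p f j • haar 𝕜 p j) f :=
  Pool.Agent.TH339.HR.expansion (𝕜 := 𝕜) (p := p) hp1 hp2 f

/-- **Main result.** For every `1 < p < ∞`, over the real and over the complex numbers, there is a
`1/3`-norm on `L_p[0,1]`, equivalent to the norm of `L_p[0,1]`, with respect to which the Haar system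
is `1`-greedy. -/
theorem result (𝕜 : Type) [RCLike 𝕜] (p : ℝ≥0∞) [Fact (1 ≤ p)] (hp1 : 1 < p) (hp2 : p ≠ ∞) :
    ∃ N : LpSpace 𝕜 p → ℝ, IsSNorm 𝕜 (1 / 3) N ∧ IsEquivalent N ∧
      IsOneGreedy (haar 𝕜 p) (coef 𝕜 p) N := by
  obtain ⟨N, h1, h2, h3, h4, h5, h6⟩ := Pool.Agent.TH339.HR.final 𝕜 p hp1 hp2
  exact ⟨N, ⟨h1, h2, h3, h4⟩, h5, h6⟩

end Pool.Agent.Results.MP_877d49_an.OneGreedySNorm
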